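import Pool.Agent.Q138.Iso.Grp

/-!
# Isospectral spherical space forms of dimension 17 with non-isomorphic fundamental groups

For `c = 1, -1` let `Γ_c` be the group of all `A^t (η P_c)^u`, where `A` is the diagonal unitary
matrix with the entries `ζ^{h(i,j)}`, `h(i,j) = 79^i 29^j` modulo `91`, `ζ` a primitive root of
unity of order `91`, `η` one of order `9`, and `P_c` the permutation `(i,j) ↦ (i + 1, j + c)` of the
coordinates, `(i,j)` in `(ℤ/3)²`. Both groups have order `819` and are fixed point free; the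
elements with the same exponents `(t,u)` are conjugate in the unitary group; and the images of the
actions by conjugation on the normal subgroup of order `91` are the subgroups `⟨16⟩` and `⟨9⟩` of
`(ℤ/91)ˣ`, so that the groups are not isomorphic.
-/

set_option autoImplicit false

namespace Pool.Agent.Results.MP_add580_gt.NonIsomorphicPair

/-- `Γ` acts freely on the unit sphere of `ℝ^N`: no element other than the identity fixes a unit
vector. -/
def ActsFreely {N : ℕ} (Γ : Subgroup (Matrix.orthogonalGroup (Fin N) ℝ)) : Prop :=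
  ∀ g ∈ Γ, g ≠ 1 → ∀ v : Fin N → ℝ, v ⬝ᵥ v = 1 → g.1.mulVec v ≠ v

/-- The dimension of the space of the `Γ`-invariant harmonic homogeneous polynomials of degree `k`
on `ℝ^N`, i.e. the multiplicity of the eigenvalue `k (k + N - 2)` of the Laplacian on the quotient
of the unit sphere by `Γ`. -/
noncomputable def multiplicity {N : ℕ} (Γ : Subgroup (Matrix.orthogonalGroup (Fin N) ℝ))
    (k : ℕ) : ℕ :=
  Module.finrank ℝ ↥(MvPolynomial.homogeneousSubmodule (Fin N) ℝ k ⊓
    LinearMap.ker (∑ i : Fin N,
      (MvPolynomial.pderiv i).toLinearMap ∘ₗ (MvPolynomial.pderiv i).toLinearMap) ⊓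
    ⨅ g ∈ Γ, LinearMap.ker ((MvPolynomial.aeval (fun i : Fin N =>
      ∑ j : Fin N, MvPolynomial.C (g.1 i j) * MvPolynomial.X j)).toLinearMap
        - LinearMap.id))

/-- The two quotients of the sphere have the same Laplace spectrum with multiplicities. -/
def Isospectral {N : ℕ} (Γ₁ Γ₂ : Subgroup (Matrix.orthogonalGroup (Fin N) ℝ)) : Prop :=
  ∀ k : ℕ, multiplicity Γ₁ k = multiplicity Γ₂ k

open Pool.Agent.Q138.Iso Pool.Agent.Helper477.HarmInv in
/-- There are a dimension `n ≡ 1 (mod 4)` (namely `n = 17`) and two finite subgroups of `O(n + 1)`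
which act freely on the sphere of dimension `n`, whose quotients are isospectral, and which are not
isomorphic as abstract groups. -/
theorem result : ∃ n : ℕ, n % 4 = 1 ∧
    ∃ Γ₁ Γ₂ : Subgroup (Matrix.orthogonalGroup (Fin (n + 1)) ℝ),
      Finite Γ₁ ∧ Finite Γ₂ ∧ ActsFreely Γ₁ ∧ ActsFreely Γ₂ ∧ Isospectral Γ₁ Γ₂ ∧
        IsEmpty (Γ₁ ≃* Γ₂) := by
  refine ⟨17, rfl, Gam 1, Gam (-1), finite_Gam 1, finite_Gam (-1), ?_, ?_, ?_, not_iso⟩
  · intro g hg hg1 v hv hgv
    rw [free 1 (by decide) hg hg1 v hgv] at hv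
    simp at hv
  · intro g hg hg1 v hv hgv
    rw [free (-1) (by decide) hg hg1 v hgv] at hv
    simp at hv
  · intro k
    exact isospectral_of_invariants (by norm_num) (Gam 1) (Gam (-1)) inv_eq k

end Pool.Agent.Results.MP_add580_gt.NonIsomorphicPair
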